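import Mathlib
import Pool.Agent.Work.MP_56168e_lc.OS.GF
import Pool.Agent.Work.MP_56168e_lc.OS.Rts
import Pool.Agent.Work.MP_56168e_lc.OS.Ker

set_option autoImplicit false

/-! The kernel of OS/Ker with a free length L and a sharper concentration bound 1 + 600 W / L. -/

namespace Pool.Agent.Work.MP_56168e_lc.TS

open Finset Pool.Agent.Work.MP_56168e_lc Pool.Agent.Work.MP_56168e_lc.OS

/-- the kernel polynomial -/
noncomputable def pzL (W L : ℕ) (z : ℂ) : ℂ :=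
  G L z ^ 3 * ∏ j ∈ Icc 1 (a0 W), G (2 ^ j) z ^ (16 * W / 2 ^ j + 1)

private lemma one_add_pow_le {b : ℝ} (hb : 0 ≤ b) (N : ℕ) : (1 + b) ^ N ≤ Real.exp (N * b) := by
  have h1 : 1 + b ≤ Real.exp b := by
    have := Real.add_one_le_exp b
    linarith
  calc (1 + b) ^ N ≤ Real.exp b ^ N := pow_le_pow_left₀ (by linarith) h1 N
    _ = Real.exp (N * b) := by rw [← Real.exp_nat_mul]

private lemma prod_bound {W : ℕ} (hW : 1 ≤ W) {z : ℂ} (hz : ‖z‖ = 1) :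
    (∏ j ∈ Icc 1 (a0 W), ‖G (2 ^ j) z‖ ^ (16 * W / 2 ^ j + 1)) ^ 2 *
      (1 + ‖1 - z‖ / 2) ^ (2 * W) ≤ Real.exp 4 := by
  obtain ⟨b, hb⟩ : ∃ b : ℝ, b = ‖1 - z‖ / 2 := ⟨_, rfl⟩
  have hb0 : 0 ≤ b := by rw [hb]; positivity
  have hb1 : b ≤ 1 := by rw [hb]; exact norm_one_sub_le hz
  rw [← hb]
  have hf0 : ∀ j, 0 ≤ ‖G (2 ^ j) z‖ ^ (16 * W / 2 ^ j + 1) := fun j => by positivity
  have hf1 : ∀ j, ‖G (2 ^ j) z‖ ^ (16 * W / 2 ^ j + 1) ≤ 1 := fun j =>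
    pow_le_one₀ (norm_nonneg _) (norm_G_le _ hz)
  have hexp : (1 + b) ^ (2 * W) ≤ Real.exp (2 * (W * b)) := by
    have h := one_add_pow_le hb0 (2 * W)
    refine h.trans (le_of_eq ?_)
    congr 1
    push_cast
    ring
  have hpos : 0 ≤ (1 + b) ^ (2 * W) := by positivity
  have hP0 : 0 ≤ ∏ j ∈ Icc 1 (a0 W), ‖G (2 ^ j) z‖ ^ (16 * W / 2 ^ j + 1) :=
    Finset.prod_nonneg fun j _ => hf0 j
  rcases le_or_gt ((W : ℝ) * b) 2 with hWb | hWb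
  · have hP1 : ∏ j ∈ Icc 1 (a0 W), ‖G (2 ^ j) z‖ ^ (16 * W / 2 ^ j + 1) ≤ 1 :=
      Finset.prod_le_one (fun j _ => hf0 j) (fun j _ => hf1 j)
    calc (∏ j ∈ Icc 1 (a0 W), ‖G (2 ^ j) z‖ ^ (16 * W / 2 ^ j + 1)) ^ 2 * (1 + b) ^ (2 * W)
        ≤ 1 * (1 + b) ^ (2 * W) := by
          refine mul_le_mul_of_nonneg_right ?_ hpos
          exact pow_le_one₀ hP0 hP1
      _ ≤ Real.exp (2 * (W * b)) := by rw [one_mul]; exact hexp
      _ ≤ Real.exp 4 := Real.exp_le_exp.2 (by linarith)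
  · have hWpos : (0 : ℝ) < W := by exact_mod_cast hW
    have hbpos : 0 < b := by
      rcases hb0.lt_or_eq with h | h
      · exact h
      · rw [← h, mul_zero] at hWb
        linarith
    have hlog : W < 2 ^ (a0 W) := Nat.lt_pow_succ_log_self (by norm_num) W
    have hex : ∃ j : ℕ, (2 : ℝ) ≤ 2 ^ j * b := by
      refine ⟨a0 W, ?_⟩
      have h1 : (W : ℝ) < 2 ^ (a0 W) := by exact_mod_cast hlog
      have h2 : (W : ℝ) * b ≤ 2 ^ (a0 W) * b := mul_le_mul_of_nonneg_right h1.le hb0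
      linarith
    classical
    obtain ⟨j, hj, hjmin⟩ : ∃ j : ℕ, (2 : ℝ) ≤ 2 ^ j * b ∧ ∀ m < j, ¬ (2 : ℝ) ≤ 2 ^ m * b :=
      ⟨Nat.find hex, Nat.find_spec hex, fun m hm => Nat.find_min hex hm⟩
    have hja : j ≤ a0 W := by
      by_contra hn
      push Not at hn
      refine hjmin (a0 W) hn ?_
      have h1 : (W : ℝ) < 2 ^ (a0 W) := by exact_mod_cast hlog
      have h2 : (W : ℝ) * b ≤ 2 ^ (a0 W) * b := mul_le_mul_of_nonneg_right h1.le hb0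
      linarith
    have hj1 : 1 ≤ j := by
      by_contra hn
      have h0 : j = 0 := by omega
      rw [h0, pow_zero, one_mul] at hj
      linarith
    have hj4 : (2 : ℝ) ^ j * b < 4 := by
      have h1 := hjmin (j - 1) (by omega)
      push Not at h1
      have h2 : (2 : ℝ) ^ j = 2 * 2 ^ (j - 1) := by
        rw [← pow_succ']
        congr 1
        omega
      rw [h2]
      linarith
    obtain ⟨N, hN⟩ : ∃ N : ℕ, N = 16 * W / 2 ^ j + 1 := ⟨_, rfl⟩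
    have hNW : (4 : ℝ) * (W * b) ≤ N := by
      have h1 : 16 * W < 2 ^ j * N := by
        rw [hN]
        exact Nat.lt_mul_div_succ _ (by positivity)
      have h2 : (16 : ℝ) * W ≤ 2 ^ j * N := by
        have : ((16 * W : ℕ) : ℝ) ≤ ((2 ^ j * N : ℕ) : ℝ) := by exact_mod_cast h1.le
        push_cast at this
        exact this
      have h3 : (16 : ℝ) * W * b ≤ 2 ^ j * N * b := mul_le_mul_of_nonneg_right h2 hb0
      have h4 : (2 : ℝ) ^ j * b * N ≤ 4 * N := mul_le_mul_of_nonneg_right hj4.le (Nat.cast_nonneg N)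
      nlinarith
    have hGj : ‖G (2 ^ j) z‖ ≤ 1 / 2 := by
      have h1 := norm_G_mul (2 ^ j) hz
      rw [← hb] at h1
      push_cast at h1
      have h2 : ‖G (2 ^ j) z‖ * 2 ≤ ‖G (2 ^ j) z‖ * (2 ^ j * b) :=
        mul_le_mul_of_nonneg_left hj (norm_nonneg _)
      linarith
    have hfj : ‖G (2 ^ j) z‖ ^ (16 * W / 2 ^ j + 1) ≤ Real.exp (-(1 / 2) * N) := by
      rw [← hN]
      have h1 : (1 : ℝ) / 2 ≤ Real.exp (-(1 / 2)) := by
        have := Real.add_one_le_exp (-(1 / 2 : ℝ))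
        linarith
      calc ‖G (2 ^ j) z‖ ^ N ≤ (Real.exp (-(1 / 2))) ^ N :=
            pow_le_pow_left₀ (norm_nonneg _) (hGj.trans h1) N
        _ = Real.exp (-(1 / 2) * N) := by rw [← Real.exp_nat_mul]; ring_nf
    have hP : ∏ j ∈ Icc 1 (a0 W), ‖G (2 ^ j) z‖ ^ (16 * W / 2 ^ j + 1) ≤
        Real.exp (-(1 / 2) * N) := by
      have hmem : j ∈ Icc 1 (a0 W) := Finset.mem_Icc.2 ⟨hj1, hja⟩
      rw [← Finset.mul_prod_erase _ _ hmem]
      have h1 : ∏ x ∈ (Icc 1 (a0 W)).erase j, ‖G (2 ^ x) z‖ ^ (16 * W / 2 ^ x + 1) ≤ 1 :=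
        Finset.prod_le_one (fun j _ => hf0 j) (fun j _ => hf1 j)
      have h2 : 0 ≤ ∏ x ∈ (Icc 1 (a0 W)).erase j, ‖G (2 ^ x) z‖ ^ (16 * W / 2 ^ x + 1) :=
        Finset.prod_nonneg fun j _ => hf0 j
      calc _ ≤ Real.exp (-(1 / 2) * N) * 1 := mul_le_mul hfj h1 h2 (Real.exp_pos _).le
        _ = _ := mul_one _
    calc (∏ j ∈ Icc 1 (a0 W), ‖G (2 ^ j) z‖ ^ (16 * W / 2 ^ j + 1)) ^ 2 * (1 + b) ^ (2 * W)
        ≤ (Real.exp (-(1 / 2) * N)) ^ 2 * Real.exp (2 * (W * b)) :=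
          mul_le_mul (pow_le_pow_left₀ hP0 hP 2) hexp hpos (by positivity)
      _ = Real.exp (-N + 2 * (W * b)) := by
          rw [← Real.exp_nat_mul, ← Real.exp_add]
          congr 1
          push_cast
          ring
      _ ≤ Real.exp 4 := Real.exp_le_exp.2 (by nlinarith)

theorem pzL_bound {W L : ℕ} (hW : 1 ≤ W) {z : ℂ} (hz : ‖z‖ = 1) :
    ‖pzL W L z‖ ^ 2 * (1 + ‖1 - z‖ / 2) ^ (2 * W) ≤ Real.exp 4 * ‖G L z‖ ^ 6 := by
  have h1 : ‖pzL W L z‖ = ‖G L z‖ ^ 3 *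
      ∏ j ∈ Icc 1 (a0 W), ‖G (2 ^ j) z‖ ^ (16 * W / 2 ^ j + 1) := by
    unfold pzL
    rw [norm_mul, norm_pow, norm_prod]
    congr 1
    refine Finset.prod_congr rfl fun j _ => ?_
    rw [norm_pow]
  have h2 := prod_bound hW hz
  have h3 : 0 ≤ ‖G L z‖ ^ 6 := by positivity
  rw [h1]
  calc (‖G L z‖ ^ 3 * ∏ j ∈ Icc 1 (a0 W), ‖G (2 ^ j) z‖ ^ (16 * W / 2 ^ j + 1)) ^ 2 *
        (1 + ‖1 - z‖ / 2) ^ (2 * W)
      = ((∏ j ∈ Icc 1 (a0 W), ‖G (2 ^ j) z‖ ^ (16 * W / 2 ^ j + 1)) ^ 2 *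
        (1 + ‖1 - z‖ / 2) ^ (2 * W)) * ‖G L z‖ ^ 6 := by ring
    _ ≤ Real.exp 4 * ‖G L z‖ ^ 6 := mul_le_mul_of_nonneg_right h2 h3

lemma pzL_one {W L : ℕ} (hL : 1 ≤ L) : pzL W L 1 = 1 := by
  unfold pzL
  rw [G_one hL, one_pow, one_mul]
  refine Finset.prod_eq_one fun j _ => ?_
  rw [G_one (Nat.one_le_two_pow), one_pow]

open Polynomial in
private noncomputable def GP (L : ℕ) : Polynomial ℝ :=
  C (1 / (L : ℝ)) * ∑ l ∈ range L, X ^ l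

private lemma GP_deg (L : ℕ) : (GP L).natDegree ≤ L - 1 := by
  refine (Polynomial.natDegree_C_mul_le _ _).trans ?_
  refine Polynomial.natDegree_sum_le_of_forall_le _ _ fun l hl => ?_
  rw [Polynomial.natDegree_X_pow]
  have := mem_range.1 hl
  omega

private lemma GP_eval (L : ℕ) (z : ℂ) :
    Polynomial.eval₂ (algebraMap ℝ ℂ) z (GP L) = G L z := by
  rw [GP, Polynomial.eval₂_mul, Polynomial.eval₂_C, Polynomial.eval₂_finsetSum, G]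
  simp only [Polynomial.eval₂_X_pow]
  have h : (algebraMap ℝ ℂ) (1 / (L : ℝ)) = (L : ℂ)⁻¹ := by simp
  rw [h, div_eq_mul_inv, mul_comm]

private noncomputable def PP (W L : ℕ) : Polynomial ℝ :=
  GP L ^ 3 * ∏ j ∈ Icc 1 (a0 W), GP (2 ^ j) ^ (16 * W / 2 ^ j + 1)

private lemma PP_eval (W L : ℕ) (z : ℂ) :
    Polynomial.eval₂ (algebraMap ℝ ℂ) z (PP W L) = pzL W L z := by
  rw [PP, Polynomial.eval₂_mul, Polynomial.eval₂_pow, Polynomial.eval₂_finsetProd, pzL, GP_eval]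
  congr 1
  refine prod_congr rfl fun j _ => ?_
  rw [Polynomial.eval₂_pow, GP_eval]

private lemma sum_two_pow (a : ℕ) : ∑ j ∈ Icc 1 a, 2 ^ j ≤ 2 ^ (a + 1) := by
  induction a with
  | zero => simp
  | succ a ih =>
    rw [← Finset.insert_Icc_right_eq_Icc_add_one (by omega), sum_insert (by simp)]
    refine (Nat.add_le_add_left ih _).trans (le_of_eq ?_)
    ring

private lemma PP_deg {W L : ℕ} (hW : 1 ≤ W) (hL : 64 * W * a0 W ≤ L) :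
    (PP W L).natDegree < 4 * L := by
  have h1 : (GP L ^ 3).natDegree ≤ 3 * (L - 1) :=
    (Polynomial.natDegree_pow_le).trans (Nat.mul_le_mul_left _ (GP_deg _))
  have h2 : (∏ j ∈ Icc 1 (a0 W), GP (2 ^ j) ^ (16 * W / 2 ^ j + 1)).natDegree ≤
      ∑ j ∈ Icc 1 (a0 W), (16 * W + 2 ^ j) := by
    refine (Polynomial.natDegree_prod_le _ _).trans (sum_le_sum fun j _ => ?_)
    refine (Polynomial.natDegree_pow_le).trans ?_
    refine (Nat.mul_le_mul_left _ (GP_deg _)).trans ?_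
    rw [add_mul, one_mul]
    refine add_le_add ?_ (Nat.sub_le _ _)
    exact (Nat.mul_le_mul_left _ (Nat.sub_le _ _)).trans (Nat.div_mul_le_self _ _)
  have h3 : ∑ j ∈ Icc 1 (a0 W), (16 * W + 2 ^ j) ≤ 20 * W * a0 W := by
    rw [sum_add_distrib, sum_const, Nat.card_Icc, smul_eq_mul]
    have h4 := sum_two_pow (a0 W)
    have h5 : 2 ^ (a0 W + 1) ≤ 4 * W := by
      have h6 : 2 ^ Nat.log 2 W ≤ W := Nat.pow_log_le_self 2 (by omega)
      have h7 : 2 ^ (a0 W + 1) = 4 * 2 ^ Nat.log 2 W := by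
        rw [a0]
        ring
      omega
    have h8 : 1 ≤ a0 W := by rw [a0]; omega
    have h9 : 4 * W ≤ 4 * W * a0 W := Nat.le_mul_of_pos_right _ h8
    have h10 : (a0 W + 1 - 1) * (16 * W) = 16 * W * a0 W := by
      rw [Nat.add_sub_cancel]
      ring
    have h11 : 20 * W * a0 W = 16 * W * a0 W + 4 * W * a0 W := by ring
    omega
  have h4 : 20 * W * a0 W ≤ L := by
    refine le_trans ?_ hL
    gcongr
    norm_num
  have h5 : 1 ≤ L := by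
    refine le_trans ?_ h4
    have h8 : 1 ≤ a0 W := by rw [a0]; omega
    have : 1 ≤ W * a0 W := Nat.mul_pos hW h8
    calc 1 ≤ W * a0 W := this
      _ ≤ 20 * (W * a0 W) := by omega
      _ = 20 * W * a0 W := by ring
  have h6 := Polynomial.natDegree_mul_le (p := GP L ^ 3)
    (q := ∏ j ∈ Icc 1 (a0 W), GP (2 ^ j) ^ (16 * W / 2 ^ j + 1))
  change (PP W L).natDegree ≤ _ at h6
  omega

theorem pzL_coeff {W L : ℕ} (hW : 1 ≤ W) (hL : 64 * W * a0 W ≤ L) :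
    ∃ c : ℕ → ℝ, ∀ z : ℂ, pzL W L z = ∑ k ∈ range (4 * L), (c k : ℂ) * z ^ k := by
  refine ⟨fun k => (PP W L).coeff k, fun z => ?_⟩
  rw [← PP_eval, Polynomial.eval₂_eq_sum_range' _ (PP_deg hW hL)]
  rfl


lemma central2 {W : ℕ} {b : ℝ} (hb : 0 ≤ b) (h : 8 * W * b ≤ 1) :
    (1 + b) ^ (2 * W) ≤ 1 + 5 / 2 * (W * b) := by
  have h1 : (1 + b) ^ (2 * W) ≤ Real.exp (b * (2 * W : ℕ)) := by
    rw [Real.exp_mul, Real.rpow_natCast]
    refine pow_le_pow_left₀ (by linarith) ?_ _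
    have := Real.add_one_le_exp b
    linarith
  obtain ⟨x, hx⟩ : ∃ x : ℝ, x = b * (2 * W : ℕ) := ⟨_, rfl⟩
  have hx0 : 0 ≤ x := by rw [hx]; positivity
  have hx1 : x ≤ 1 / 4 := by
    rw [hx]
    push_cast
    nlinarith
  have h4 : Real.exp x ≤ 1 + x + x ^ 2 := by
    have h6 := abs_le.mp (Real.abs_exp_sub_one_sub_id_le (x := x)
      (by rw [abs_of_nonneg hx0]; linarith))
    linarith [h6.2]
  rw [← hx] at h1
  refine h1.trans (h4.trans ?_)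
  have h5 : x ^ 2 ≤ x * (1 / 4) := by nlinarith
  have h6 : W * b = x / 2 := by
    rw [hx]
    push_cast
    ring
  rw [h6]
  linarith

lemma outer2 {W L : ℕ} (hW : 1 ≤ W) (hL : 64 * W * a0 W ≤ L) {z : ℂ} (hz : ‖z‖ = 1)
    (h : 1 < 8 * W * (‖1 - z‖ / 2)) :
    ‖pzL W L z‖ ^ 2 * (1 + ‖1 - z‖ / 2) ^ (2 * W) ≤ W / L * ‖G L z‖ ^ 2 := by
  have hW0 : (1 : ℝ) ≤ W := by exact_mod_cast hW
  have ha : 1 ≤ a0 W := by unfold a0; omega
  have hL64 : (64 : ℝ) * W ≤ L := by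
    have h1 : 64 * W ≤ L := le_trans (Nat.le_mul_of_pos_right _ ha) hL
    exact_mod_cast h1
  have hLp : (0 : ℝ) < L := by linarith
  have hLb : (L : ℝ) ≤ 8 * W * (L * (‖1 - z‖ / 2)) := by nlinarith
  have hG : ‖G L z‖ ≤ 8 * W / L := by
    have h1 := norm_G_mul L hz
    rw [le_div_iff₀ hLp]
    calc ‖G L z‖ * L ≤ ‖G L z‖ * (8 * W * (L * (‖1 - z‖ / 2))) :=
          mul_le_mul_of_nonneg_left hLb (norm_nonneg _)
      _ = 8 * W * (‖G L z‖ * (L * (‖1 - z‖ / 2))) := by ring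
      _ ≤ 8 * W * 1 := mul_le_mul_of_nonneg_left h1 (by positivity)
      _ = 8 * W := by ring
  have hG8 : 8 * (W : ℝ) / L ≤ 1 / 8 := by
    rw [div_le_div_iff₀ hLp (by norm_num)]
    linarith
  have hG4 : ‖G L z‖ ^ 4 ≤ (1 / 8 : ℝ) ^ 3 * (8 * (W : ℝ) / L) := by
    calc ‖G L z‖ ^ 4 = ‖G L z‖ ^ 3 * ‖G L z‖ := by ring
      _ ≤ (1 / 8 : ℝ) ^ 3 * (8 * (W : ℝ) / L) :=
          mul_le_mul (pow_le_pow_left₀ (norm_nonneg _) (hG.trans hG8) 3) hG (norm_nonneg _)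
            (by norm_num)
  refine (pzL_bound hW hz).trans ?_
  have e6 : ‖G L z‖ ^ 6 = ‖G L z‖ ^ 4 * ‖G L z‖ ^ 2 := by ring
  rw [e6, ← mul_assoc]
  refine mul_le_mul_of_nonneg_right ?_ (by positivity)
  have h5 : (0 : ℝ) ≤ W / L := by positivity
  calc Real.exp 4 * ‖G L z‖ ^ 4 ≤ 55 * ((1 / 8) ^ 3 * (8 * W / L)) :=
        mul_le_mul exp_four_le hG4 (by positivity) (by norm_num)
    _ = 55 / 64 * (W / L) := by ring
    _ ≤ W / L := by linarith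

lemma inner2 {W L : ℕ} (hW : 1 ≤ W) (hL : 64 * W * a0 W ≤ L) {z : ℂ} (hz : ‖z‖ = 1)
    (h : 8 * W * (‖1 - z‖ / 2) ≤ 1) :
    ‖pzL W L z‖ ^ 2 * (1 + ‖1 - z‖ / 2) ^ (2 * W) ≤
      ‖pzL W L z‖ ^ 2 + 138 * (W / L) * ‖G L z‖ ^ 2 := by
  have hW0 : (1 : ℝ) ≤ W := by exact_mod_cast hW
  have ha : 1 ≤ a0 W := by unfold a0; omega
  have hL64 : (64 : ℝ) * W ≤ L := by
    have h1 : 64 * W ≤ L := le_trans (Nat.le_mul_of_pos_right _ ha) hL
    exact_mod_cast h1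
  have hLp : (0 : ℝ) < L := by linarith
  obtain ⟨b, hb⟩ : ∃ b : ℝ, b = ‖1 - z‖ / 2 := ⟨_, rfl⟩
  have hb0 : 0 ≤ b := by rw [hb]; positivity
  have h1 := central2 hb0 (by rw [hb]; exact h)
  have h2 : ‖pzL W L z‖ ^ 2 ≤ 55 * ‖G L z‖ ^ 6 := by
    have h3 := pzL_bound (L := L) hW hz
    have h4 : (1 : ℝ) ≤ (1 + ‖1 - z‖ / 2) ^ (2 * W) := one_le_pow₀ (by rw [← hb]; linarith)
    have h5 : ‖pzL W L z‖ ^ 2 * 1 ≤ ‖pzL W L z‖ ^ 2 * (1 + ‖1 - z‖ / 2) ^ (2 * W) :=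
      mul_le_mul_of_nonneg_left h4 (by positivity)
    have h6 : Real.exp 4 * ‖G L z‖ ^ 6 ≤ 55 * ‖G L z‖ ^ 6 :=
      mul_le_mul_of_nonneg_right exp_four_le (by positivity)
    linarith
  have hG1 : ‖G L z‖ ≤ 1 := norm_G_le _ hz
  have hGb : ‖G L z‖ * (W * b) ≤ W / L := by
    have h3 := norm_G_mul L hz
    rw [← hb] at h3
    rw [le_div_iff₀ hLp]
    calc ‖G L z‖ * (W * b) * L = W * (‖G L z‖ * (L * b)) := by ring
      _ ≤ W * 1 := mul_le_mul_of_nonneg_left h3 (by positivity)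
      _ = W := by ring
  have h5 : ‖G L z‖ ^ 5 ≤ ‖G L z‖ ^ 2 :=
    pow_le_pow_of_le_one (norm_nonneg _) hG1 (by norm_num)
  rw [← hb]
  calc ‖pzL W L z‖ ^ 2 * (1 + b) ^ (2 * W) ≤ ‖pzL W L z‖ ^ 2 * (1 + 5 / 2 * (W * b)) :=
        mul_le_mul_of_nonneg_left h1 (by positivity)
    _ = ‖pzL W L z‖ ^ 2 + 5 / 2 * (‖pzL W L z‖ ^ 2 * (W * b)) := by ring
    _ ≤ ‖pzL W L z‖ ^ 2 + 5 / 2 * (55 * ‖G L z‖ ^ 6 * (W * b)) := by
        have : ‖pzL W L z‖ ^ 2 * (W * b) ≤ 55 * ‖G L z‖ ^ 6 * (W * b) :=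
          mul_le_mul_of_nonneg_right h2 (by positivity)
        linarith
    _ = ‖pzL W L z‖ ^ 2 + 275 / 2 * (‖G L z‖ ^ 5 * (‖G L z‖ * (W * b))) := by ring
    _ ≤ ‖pzL W L z‖ ^ 2 + 275 / 2 * (‖G L z‖ ^ 2 * (W / L)) := by
        have : ‖G L z‖ ^ 5 * (‖G L z‖ * (W * b)) ≤ ‖G L z‖ ^ 2 * (W / L) :=
          mul_le_mul h5 hGb (by positivity) (by positivity)
        linarith
    _ ≤ _ := by
        have h6 : (0 : ℝ) ≤ ‖G L z‖ ^ 2 * (W / L) := by positivity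
        have h7 : 138 * ((W : ℝ) / L) * ‖G L z‖ ^ 2 = 138 * (‖G L z‖ ^ 2 * (W / L)) := by ring
        rw [h7]
        linarith

theorem kernL {W L : ℕ} (hW : 1 ≤ W) (hL : 64 * W * a0 W ≤ L) (n : ℕ) :
    ∃ (M : ℕ) (w : Fin M → ℝ) (z : Fin M → ℂ), Kern W n (4 * L) (600 * (W / L)) M w z := by
  obtain ⟨c, hc⟩ := pzL_coeff hW hL
  have hL1 : 1 ≤ L := by
    have ha : 1 ≤ a0 W := by unfold a0; omega
    have : 1 ≤ 64 * W * a0 W := Nat.one_le_iff_ne_zero.2 (by positivity)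
    omega
  obtain ⟨N, hN⟩ : ∃ N, N = 4 * L := ⟨_, rfl⟩
  rw [← hN] at hc ⊢
  obtain ⟨M, hM⟩ : ∃ M, M = n + 2 * N := ⟨_, rfl⟩
  have hN1 : 1 ≤ N := by omega
  have hNM : N ≤ M := by omega
  have hLM : L ≤ M := by omega
  have hL0 : (1 : ℝ) ≤ L := by exact_mod_cast hL1
  have hN0 : (1 : ℝ) ≤ N := by exact_mod_cast hN1
  have hM0 : (1 : ℝ) ≤ M := by
    have : 1 ≤ M := by omega
    exact_mod_cast this
  have hA : ∀ r : Fin M, ‖pzL W L (rt1 M r)‖ ^ 2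
      = ‖∑ k ∈ range N, (c k : ℂ) * rt1 M r ^ k‖ ^ 2 := by
    intro r
    rw [hc]
  obtain ⟨Z, hZd⟩ : ∃ Z, Z = ∑ r : Fin M, ‖pzL W L (rt1 M r)‖ ^ 2 := ⟨_, rfl⟩
  have hZ : Z = M * ∑ k ∈ range N, c k ^ 2 := by
    rw [hZd, sum_congr rfl fun r _ => hA r]
    exact parseval_rt1 c hNM
  have hc1 : ∑ k ∈ range N, c k = 1 := by
    have h1 := hc 1
    rw [pzL_one hL1] at h1
    have h2 : ((∑ k ∈ range N, c k : ℝ) : ℂ) = 1 := by
      rw [h1]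
      push_cast
      simp
    exact_mod_cast h2
  have hcs : 1 ≤ (N : ℝ) * ∑ k ∈ range N, c k ^ 2 := by
    have h1 := sq_sum_le_card_mul_sum_sq (s := range N) (f := c)
    rw [hc1, card_range] at h1
    simpa using h1
  have hZN : (M : ℝ) / N ≤ Z := by
    rw [hZ, div_le_iff₀ (by linarith)]
    have : (M : ℝ) * 1 ≤ M * (N * ∑ k ∈ range N, c k ^ 2) :=
      mul_le_mul_of_nonneg_left hcs (by linarith)
    nlinarith
  have hZ0 : 0 < Z := lt_of_lt_of_le (by positivity) hZN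
  refine ⟨M, fun r => ‖pzL W L (rt1 M r)‖ ^ 2 / Z, fun r => rt1 M r, ?_⟩
  constructor
  · intro r
    positivity
  · intro r
    exact norm_rt1 M r
  · rw [← sum_div, ← hZd]
    exact div_self hZ0.ne'
  · intro m h1 h2
    unfold psi
    have h3 := vanish_rt1 c (N := N) (M := M) (m := m) h1 (by omega)
    have h4 : ∑ r : Fin M, ‖pzL W L (rt1 M r)‖ ^ 2 / Z * (rt1 M r ^ m).re
        = (∑ r : Fin M, ‖∑ k ∈ range N, (c k : ℂ) * rt1 M r ^ k‖ ^ 2 * (rt1 M r ^ m).re) / Z := by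
      rw [sum_div]
      refine sum_congr rfl fun r _ => ?_
      rw [hA r]
      ring
    rw [h4, h3, zero_div]
  · have hr : ∀ r : Fin M, ‖pzL W L (rt1 M r)‖ ^ 2 * (1 + ‖1 - rt1 M r‖ / 2) ^ (2 * W) ≤
        ‖pzL W L (rt1 M r)‖ ^ 2 + 139 * (W / L) * ‖G L (rt1 M r)‖ ^ 2 := by
      intro r
      have p1 : 0 ≤ (W : ℝ) / L * ‖G L (rt1 M r)‖ ^ 2 := by positivity
      have p3 : 0 ≤ ‖pzL W L (rt1 M r)‖ ^ 2 := by positivity
      by_cases h : 8 * W * (‖1 - rt1 M r‖ / 2) ≤ 1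
      · have h1 := inner2 hW hL (norm_rt1 M r) h
        linarith
      · push Not at h
        have h1 := outer2 hW hL (norm_rt1 M r) h
        linarith
    have hs : ∑ r : Fin M, ‖pzL W L (rt1 M r)‖ ^ 2 * (1 + ‖1 - rt1 M r‖ / 2) ^ (2 * W) ≤
        Z + 139 * (W / L) * (M / L) := by
      refine (sum_le_sum fun r _ => hr r).trans ?_
      rw [sum_add_distrib, ← mul_sum, ← hZd, sum_G_sq hL1 hLM]
    have e1 : ∑ r : Fin M, ‖pzL W L (rt1 M r)‖ ^ 2 / Z * (1 + ‖1 - rt1 M r‖ / 2) ^ (2 * W)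
        = (∑ r : Fin M, ‖pzL W L (rt1 M r)‖ ^ 2 * (1 + ‖1 - rt1 M r‖ / 2) ^ (2 * W)) / Z := by
      rw [sum_div]
      refine sum_congr rfl fun r _ => ?_
      ring
    rw [e1, div_le_iff₀ hZ0]
    refine hs.trans ?_
    have hML : (M : ℝ) / L ≤ 4 * Z := by
      have h1 : (M : ℝ) / L = 4 * (M / N) := by
        rw [hN]
        push_cast
        field_simp
      rw [h1]
      linarith
    have hWL : (0 : ℝ) ≤ W / L := by positivity
    have h5 : 139 * ((W : ℝ) / L) * (M / L) ≤ 139 * (W / L) * (4 * Z) :=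
      mul_le_mul_of_nonneg_left hML (by positivity)
    have h6 : (0 : ℝ) ≤ W / L * Z := mul_nonneg hWL hZ0.le
    have e2 : (1 + 600 * ((W : ℝ) / L)) * Z = Z + 600 * (W / L * Z) := by ring
    have e3 : 139 * ((W : ℝ) / L) * (4 * Z) = 556 * (W / L * Z) := by ring
    rw [e2]
    rw [e3] at h5
    linarith

end Pool.Agent.Work.MP_56168e_lc.TS
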