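import Mathlib
import Pool.Agent.Work.MP_56168e_lc.OS.Num

set_option autoImplicit false

/-! Numbers for the two-sided theorem. -/

namespace Pool.Agent.Work.MP_56168e_lc.TS

open Finset Pool.Agent.Work.MP_56168e_lc Pool.Agent.Work.MP_56168e_lc.OS

/-- the exponent -/
noncomputable def YY (C : ℝ) (s : ℕ) (δ : ℝ) : ℝ :=
  C * LL s δ * Real.log (LL s δ) * (1 / δ + Real.log (LL s δ)) ^ 2

private lemma log16 (s : ℕ) {δ : ℝ} (h0 : 0 < δ) :
    LL s δ = 4 * Real.log 2 + Real.log (s + 1) + -Real.log δ := by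
  have hs : (0 : ℝ) < (s : ℝ) + 1 := by positivity
  unfold LL
  rw [Real.log_div (by positivity) h0.ne', Real.log_mul (by norm_num) hs.ne']
  have : Real.log 16 = 4 * Real.log 2 := by
    rw [show (16 : ℝ) = 2 ^ 4 by norm_num, Real.log_pow]
    norm_num
  rw [this]
  ring

private lemma a0_le {W : ℕ} {L : ℝ} (hlog : 1 ≤ Real.log L) (hW1 : 1 ≤ W)
    (hW : (W : ℝ) ≤ L ^ 2) : (a0 W : ℝ) ≤ 4 * Real.log L := by
  have h1 : (2 : ℝ) ^ Nat.log 2 W ≤ W := by exact_mod_cast Nat.pow_log_le_self 2 (by omega)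
  have h2 : (Nat.log 2 W : ℝ) * Real.log 2 ≤ 2 * Real.log L := by
    rw [← Real.log_pow]
    have h3 : Real.log (2 ^ Nat.log 2 W) ≤ Real.log (L ^ 2) :=
      Real.log_le_log (by positivity) (h1.trans hW)
    have h4 : Real.log (L ^ 2) = 2 * Real.log L := by
      rw [Real.log_pow]
      norm_num
    rw [h4] at h3
    exact h3
  have h5 := Real.log_two_gt_d9
  have h6 : (0 : ℝ) ≤ (Nat.log 2 W : ℝ) := by positivity
  unfold a0
  push_cast
  nlinarith

lemma pow_ge {x : ℕ} (h : 14 ≤ x) : 1024 * x ≤ 2 ^ x := by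
  induction x, h using Nat.le_induction with
  | base => norm_num
  | succ x hx ih =>
    rw [pow_succ]
    omega

/-- the choice of the ratio ρ -/
lemma rho_ok {W Q : ℕ} (hW : 1 ≤ W) :
    4 * (8 * Q + 2 ^ 14 * a0 W) * (Q + 128 * a0 (2 * (8 * Q + 2 ^ 14 * a0 W) * W)) + 1 ≤
      (8 * Q + 2 ^ 14 * a0 W) ^ 2 := by
  obtain ⟨ρ, hρ⟩ : ∃ ρ, ρ = 8 * Q + 2 ^ 14 * a0 W := ⟨_, rfl⟩
  rw [← hρ]
  have ha : 1 ≤ a0 W := by unfold a0; omega
  have hρ14 : 2 ^ 14 ≤ ρ := by rw [hρ]; omega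
  have h1 : a0 (2 * ρ * W) ≤ Nat.log 2 ρ + a0 W + 2 := by
    have h2 : ρ < 2 ^ (Nat.log 2 ρ + 1) := Nat.lt_pow_succ_log_self (by norm_num) ρ
    have h3 : W < 2 ^ (Nat.log 2 W + 1) := Nat.lt_pow_succ_log_self (by norm_num) W
    have h4 : 2 * ρ * W < 2 ^ (Nat.log 2 ρ + Nat.log 2 W + 3) := by
      have h5 : ρ * W < 2 ^ (Nat.log 2 ρ + 1) * 2 ^ (Nat.log 2 W + 1) :=
        Nat.mul_lt_mul'' h2 h3
      have e : 2 ^ (Nat.log 2 ρ + Nat.log 2 W + 3) =
          2 * (2 ^ (Nat.log 2 ρ + 1) * 2 ^ (Nat.log 2 W + 1)) := by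
        rw [← pow_add]
        ring
      rw [e, mul_assoc]
      omega
    have h6 : Nat.log 2 (2 * ρ * W) < Nat.log 2 ρ + Nat.log 2 W + 3 :=
      Nat.log_lt_of_lt_pow (by positivity) h4
    unfold a0
    omega
  have hlog : 14 ≤ Nat.log 2 ρ := by
    have := Nat.log_mono_right (b := 2) hρ14
    rwa [Nat.log_pow (by norm_num)] at this
  have h2 : 1024 * Nat.log 2 ρ ≤ ρ :=
    (pow_ge hlog).trans (Nat.pow_log_le_self 2 (by omega))
  have h3 : 4 * (Q + 128 * a0 (2 * ρ * W)) + 1 ≤ ρ := by omega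
  calc 4 * ρ * (Q + 128 * a0 (2 * ρ * W)) + 1 ≤ ρ * (4 * (Q + 128 * a0 (2 * ρ * W)) + 1) := by
        have : 1 ≤ ρ := by omega
        nlinarith
    _ ≤ ρ * ρ := Nat.mul_le_mul_left _ h3
    _ = ρ ^ 2 := by ring

theorem num2 : ∃ C : ℝ, 0 < C ∧ ∀ (s : ℕ) (δ : ℝ), 0 < δ → δ ≤ 1 →
    ∃ W Q : ℕ, 1 ≤ W ∧ 1 ≤ Q ∧ 57600 / (Q : ℝ) ≤ δ ∧ (s + 1) * (1 / 2) ^ W ≤ δ / 16 ∧
      (s + 1) ^ 2 * (Real.exp (-(YY C s δ)) *
        ((13 * W) ^ ((8 * Q + 2 ^ 14 * a0 W) ^ 2 * W)) ^ 2) ≤ δ / 64 := by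
  refine ⟨10 ^ 13, by norm_num, fun s δ hδ hδ1 => ?_⟩
  set L := LL s δ with hLdef
  have hs1 : (1 : ℝ) ≤ (s : ℝ) + 1 := by
    have : (0 : ℝ) ≤ (s : ℝ) := by positivity
    linarith
  have hu : 0 ≤ Real.log ((s : ℝ) + 1) := Real.log_nonneg hs1
  have hd : 0 ≤ -Real.log δ := by
    have := Real.log_nonpos hδ.le hδ1
    linarith
  have hLeq : L = 4 * Real.log 2 + Real.log (s + 1) + -Real.log δ := log16 s hδ
  have hlog2 := Real.log_two_gt_d9
  have hlog2' := Real.log_two_lt_d9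
  have hL27 : 2.77 ≤ L := by
    rw [hLeq]
    linarith
  have hlogL : 1 ≤ Real.log L := by
    rw [Real.le_log_iff_exp_le (by linarith)]
    have := Real.exp_one_lt_d9
    linarith
  have hbd : 1 ≤ 1 / δ := by
    rw [le_div_iff₀ hδ]
    linarith
  set W := ⌈2 * L⌉₊ with hWdef
  have hW0 : 2 * L ≤ W := Nat.le_ceil _
  have hW1r : (W : ℝ) < 2 * L + 1 := Nat.ceil_lt_add_one (by linarith)
  have hW1 : 1 ≤ W := by
    have : (1 : ℝ) ≤ W := by linarith
    exact_mod_cast this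
  have hWL : (W : ℝ) ≤ 3 * L := by linarith
  have hWL2 : (W : ℝ) ≤ L ^ 2 := by nlinarith
  set Q := ⌈57600 * (1 / δ)⌉₊ with hQdef
  have hQ0 : 57600 * (1 / δ) ≤ Q := Nat.le_ceil _
  have hQ1r : (Q : ℝ) < 57600 * (1 / δ) + 1 := Nat.ceil_lt_add_one (by linarith)
  have hQ1 : 1 ≤ Q := by
    have : (1 : ℝ) ≤ Q := by linarith
    exact_mod_cast this
  have hQB : (Q : ℝ) ≤ 57601 * (1 / δ) := by linarith
  have hQpos : (0 : ℝ) < Q := by linarith
  refine ⟨W, Q, hW1, hQ1, ?_, ?_, ?_⟩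
  · rw [div_le_iff₀ hQpos]
    have h1 : 57600 * (1 / δ) * δ ≤ Q * δ := mul_le_mul_of_nonneg_right hQ0 hδ.le
    have h2 : 57600 * (1 / δ) * δ = 57600 := by field_simp
    linarith
  · have h1 : ((1 : ℝ) / 2) ^ W ≤ Real.exp (-L) := by
      have h2 : ((1 : ℝ) / 2) ^ W = Real.exp (-(W * Real.log 2)) := by
        rw [Real.exp_neg, mul_comm, Real.exp_mul, Real.exp_log (by norm_num), Real.rpow_natCast,
          ← inv_pow]
        norm_num
      rw [h2]
      apply Real.exp_le_exp.2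
      nlinarith
    have h3 : Real.exp (-L) = δ / (16 * (s + 1)) := by
      rw [hLdef, LL, Real.exp_neg, Real.exp_log (by positivity), inv_div]
    rw [h3] at h1
    calc ((s : ℝ) + 1) * (1 / 2) ^ W ≤ (s + 1) * (δ / (16 * (s + 1))) :=
          mul_le_mul_of_nonneg_left h1 (by linarith)
      _ = δ / 16 := by
          field_simp
  · obtain ⟨ρ, hρ⟩ : ∃ ρ, ρ = 8 * Q + 2 ^ 14 * a0 W := ⟨_, rfl⟩
    rw [← hρ]
    have ha := a0_le hlogL hW1 hWL2
    have hρB : (ρ : ℝ) ≤ 500000 * (1 / δ + Real.log L) := by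
      rw [hρ]
      push_cast
      nlinarith
    have hlog13 : Real.log (13 * W) ≤ 5 * Real.log L := by
      have h1 : (13 : ℝ) * W ≤ L ^ 5 := by
        have h2 : 13 ≤ L ^ 3 := by
          calc (13 : ℝ) ≤ 2.77 ^ 3 := by norm_num
            _ ≤ L ^ 3 := pow_le_pow_left₀ (by norm_num) hL27 3
        calc (13 : ℝ) * W ≤ L ^ 3 * L ^ 2 :=
              mul_le_mul h2 hWL2 (by positivity) (by positivity)
          _ = L ^ 5 := by ring
      have h4 : Real.log (L ^ 5) = 5 * Real.log L := by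
        rw [Real.log_pow]
        norm_num
      rw [← h4]
      exact Real.log_le_log (by positivity) h1
    have hlog0 : 0 ≤ Real.log (13 * W) := by
      apply Real.log_nonneg
      have : (1 : ℝ) ≤ W := by exact_mod_cast hW1
      linarith
    have e1 : ((13 * (W : ℝ)) ^ (ρ ^ 2 * W)) ^ 2 =
        Real.exp (2 * (ρ ^ 2 * W) * Real.log (13 * W)) := by
      have hpos : (0 : ℝ) < 13 * W := by positivity
      rw [← pow_mul, ← Real.exp_log hpos, ← Real.exp_nat_mul, Real.exp_log hpos]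
      congr 1
      push_cast
      ring
    have e2 : ((s : ℝ) + 1) ^ 2 = Real.exp (2 * Real.log (s + 1)) := by
      rw [← Real.exp_log (show (0 : ℝ) < (s + 1) by linarith), ← Real.exp_nat_mul, Real.exp_log
        (show (0 : ℝ) < (s + 1) by linarith)]
      norm_num
    have e3 : δ / 64 = Real.exp (Real.log δ - 6 * Real.log 2) := by
      rw [Real.exp_sub, Real.exp_log hδ]
      congr 1
      have : (6 : ℝ) * Real.log 2 = Real.log (2 ^ 6) := by
        rw [Real.log_pow]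
        norm_num
      rw [this, Real.exp_log (by norm_num)]
      norm_num
    rw [e1, e2, e3, ← Real.exp_add, ← Real.exp_add]
    apply Real.exp_le_exp.2
    obtain ⟨B, hB⟩ : ∃ B : ℝ, B = 1 / δ + Real.log L := ⟨_, rfl⟩
    have hB1 : 2 ≤ B := by rw [hB]; linarith
    rw [← hB] at hρB
    have h5 : (ρ : ℝ) ^ 2 ≤ (500000 * B) ^ 2 := pow_le_pow_left₀ (by positivity) hρB 2
    have h6 : 2 * ((ρ : ℝ) ^ 2 * W) * Real.log (13 * W) ≤
        2 * ((500000 * B) ^ 2 * (3 * L)) * (5 * Real.log L) := by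
      have h7 : (ρ : ℝ) ^ 2 * W ≤ (500000 * B) ^ 2 * (3 * L) :=
        mul_le_mul h5 hWL (by positivity) (by positivity)
      exact mul_le_mul (by linarith) hlog13 hlog0 (by positivity)
    have hX : YY (10 ^ 13) s δ = 10 ^ 13 * (L * Real.log L * B ^ 2) := by
      unfold YY
      rw [← hLdef, ← hB]
      ring
    have h8 : L ≤ L * Real.log L * B ^ 2 := by
      have h9 : 1 ≤ Real.log L * B ^ 2 := by nlinarith
      nlinarith
    rw [hX]
    have h10 : 2 * ((500000 * B) ^ 2 * (3 * L)) * (5 * Real.log L) =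
        7500000000000 * (L * Real.log L * B ^ 2) := by ring
    rw [h10] at h6
    nlinarith

end Pool.Agent.Work.MP_56168e_lc.TS
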