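import Mathlib
import Pool.Agent.Work.MP_56168e_lc.OS.Flip
import Pool.Agent.Work.MP_56168e_lc.OS.Uu
import Pool.Agent.Work.MP_56168e_lc.OS.ApxV

set_option autoImplicit false

/-!
# Two-sided fooling of all DNFs, upper side: expansion around a satisfied term

`dR z g R x` = sum over S containing R of z^|S| (fc g S) chi S x,
`QR z t g x` = sum over R of t^|R| ‖dR z g R x‖^2.
-/

namespace Pool.Agent.Work.MP_56168e_lc.TS

open Finset Pool.Agent.Work.MP_56168e_lc Pool.Agent.Work.MP_56168e_lc.OS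

variable {n s : ℕ}

noncomputable def dR (z : ℂ) (g : Cube n → ℝ) (R : Finset (Fin n)) (x : Cube n) : ℂ :=
  ∑ S ∈ (univ : Finset (Finset (Fin n))).filter (fun S => R ⊆ S),
    z ^ S.card * ((fc g S * chi S x : ℝ) : ℂ)

noncomputable def QR (z : ℂ) (t : ℝ) (g : Cube n → ℝ) (x : Cube n) : ℝ :=
  ∑ R : Finset (Fin n), t ^ R.card * ‖dR z g R x‖ ^ 2

lemma sat_flp {P : PA n} {x : Cube n} (h : Sat P x) {J : Finset (Fin n)} (hJ : J ⊆ (dom P)ᶜ) :
    Sat P (flp J x) := by
  intro i b hb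
  have h1 : i ∈ dom P := by
    rw [mem_dom, hb]
    exact Option.some_ne_none b
  have h2 : i ∉ J := fun hi => by
    have := hJ hi
    rw [mem_compl] at this
    exact this h1
  unfold flp
  rw [if_neg h2]
  exact h i b hb

/-- on the cube of a satisfied term the noise operator of the other variables fixes the DNF -/
theorem cm_one (T : Fin s → PA n) (i : Fin s) (z : ℂ) {x : Cube n} (h : Sat (T i) x) :
    cm (dom (T i))ᶜ z (dn T) x = 1 := by
  rw [cm_flip]
  have h1 : ∀ J ∈ (dom (T i))ᶜ.powerset, ((dn T (flp J x) : ℝ) : ℂ) = 1 := by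
    intro J hJ
    have h2 : dn T (flp J x) = 1 := by
      unfold dn
      rw [if_pos ⟨i, sat_flp h (mem_powerset.1 hJ)⟩]
    rw [h2]
    exact Complex.ofReal_one
  have h3 := Finset.sum_pow_mul_eq_add_pow ((1 - z) / 2) ((1 + z) / 2) (dom (T i))ᶜ
  have h4 : (1 - z) / 2 + (1 + z) / 2 = 1 := by ring
  rw [h4, one_pow] at h3
  refine Eq.trans (Finset.sum_congr rfl fun J hJ => ?_) h3
  rw [h1 J hJ, mul_one, card_sdiff_of_subset (mem_powerset.1 hJ)]
  exact mul_comm _ _

/-- the weighted sum of the truncated expansions is 1 at every point of a term -/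
theorem sum_cm_tr (T : Fin s → PA n) {W W' K M : ℕ} {η : ℝ} {w : Fin M → ℝ} {z : Fin M → ℂ}
    (hW : ∀ i, (dom (T i)).card ≤ W) (hK : Kern W' n K η M w z) (i : Fin s) {x : Cube n}
    (h : Sat (T i) x) :
    ∑ r, w r * (cm (dom (T i))ᶜ (z r) (tr (K + W) (dn T)) x).re = 1 := by
  have e : ∀ g : Cube n → ℝ, ∑ r, w r * (cm (dom (T i))ᶜ (z r) g x).re =
      ∑ S : Finset (Fin n), psi w z (S ∩ (dom (T i))ᶜ).card * (fc g S * chi S x) := by
    intro g
    unfold cm psi
    simp only [Complex.re_sum, mul_sum, sum_mul]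
    rw [sum_comm]
    refine sum_congr rfl fun S _ => sum_congr rfl fun r _ => ?_
    rw [Complex.re_mul_ofReal]
    ring
  have h1 : ∑ r, w r * (cm (dom (T i))ᶜ (z r) (dn T) x).re = 1 := by
    rw [← hK.total]
    refine sum_congr rfl fun r _ => ?_
    rw [cm_one T i (z r) h, Complex.one_re, mul_one]
  rw [← h1, e, e]
  refine sum_congr rfl fun S _ => ?_
  rw [fc_tr]
  by_cases hS : S.card < K + W
  · rw [if_pos hS]
  · rw [if_neg hS]
    have h2 : K ≤ (S ∩ (dom (T i))ᶜ).card := by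
      have h3 : S.card ≤ (S ∩ (dom (T i))ᶜ).card + (dom (T i)).card := by
        calc S.card ≤ ((S ∩ (dom (T i))ᶜ) ∪ dom (T i)).card := by
              refine card_le_card fun a ha => ?_
              rw [mem_union, mem_inter, mem_compl]
              by_cases hd : a ∈ dom (T i)
              · exact Or.inr hd
              · exact Or.inl ⟨ha, hd⟩
          _ ≤ _ := card_union_le _ _
      have := hW i
      omega
    have h3 : (S ∩ (dom (T i))ᶜ).card ≤ n := by
      refine (card_le_univ _).trans ?_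
      simp
    rw [hK.vanish _ h2 h3]
    ring

/-- expansion of the noise operator on the complement of D -/
theorem cm_exp (D : Finset (Fin n)) {z : ℂ} (hz : ‖z‖ = 1) (g : Cube n → ℝ) (x : Cube n) :
    cm Dᶜ z g x = ∑ R ∈ D.powerset, ((starRingEnd ℂ) z - 1) ^ R.card * dR z g R x := by
  have hzz : (starRingEnd ℂ) z * z = 1 := by
    rw [mul_comm, Complex.mul_conj, Complex.normSq_eq_norm_sq, hz]
    norm_num
  have h1 : ∀ S : Finset (Fin n), z ^ (S ∩ Dᶜ).card =
      z ^ S.card * ∑ R ∈ D.powerset.filter (fun R => R ⊆ S), ((starRingEnd ℂ) z - 1) ^ R.card := by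
    intro S
    have h2 : D.powerset.filter (fun R => R ⊆ S) = (S ∩ D).powerset := by
      ext R
      rw [mem_filter, mem_powerset, mem_powerset, subset_inter_iff]
      exact and_comm
    have h3 := Finset.sum_pow_mul_eq_add_pow ((starRingEnd ℂ) z - 1) 1 (S ∩ D)
    simp only [one_pow, mul_one, sub_add_cancel] at h3
    have h4 : (S ∩ Dᶜ).card + (S ∩ D).card = S.card := by
      have := Finset.card_inter_add_card_sdiff S D
      have e : S \ D = S ∩ Dᶜ := by
        ext a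
        simp [mem_sdiff]
      rw [e] at this
      omega
    rw [h2, h3, ← h4, pow_add, mul_assoc, ← mul_pow, mul_comm z, hzz, one_pow, mul_one]
  unfold cm dR
  simp only [mul_sum]
  rw [Finset.sum_congr rfl fun S _ => by rw [h1 S]]
  simp only [mul_sum, sum_mul, sum_filter]
  rw [sum_comm]
  refine sum_congr rfl fun R _ => sum_congr rfl fun S _ => ?_
  by_cases hRS : R ⊆ S
  · rw [if_pos hRS, if_pos hRS]
    ring
  · rw [if_neg hRS, if_neg hRS, mul_zero, zero_mul]

theorem norm_cm_sq_le (D : Finset (Fin n)) {z : ℂ} (hz : ‖z‖ = 1) {θ t : ℝ} (hθ : 0 ≤ θ)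
    (ht : 0 ≤ t) (h : θ * t = ‖1 - z‖ ^ 2) (g : Cube n → ℝ) (x : Cube n) :
    ‖cm Dᶜ z g x‖ ^ 2 ≤ (1 + θ) ^ D.card * QR z t g x := by
  have ha : ‖(starRingEnd ℂ) z - 1‖ = ‖1 - z‖ := by
    have : (starRingEnd ℂ) z - 1 = (starRingEnd ℂ) (z - 1) := by
      rw [map_sub, map_one]
    rw [this, Complex.norm_conj, norm_sub_rev]
  have h1 : ‖cm Dᶜ z g x‖ ≤ ∑ R ∈ D.powerset, ‖1 - z‖ ^ R.card * ‖dR z g R x‖ := by
    rw [cm_exp D hz]
    refine (norm_sum_le _ _).trans (le_of_eq ?_)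
    refine sum_congr rfl fun R _ => ?_
    rw [norm_mul, norm_pow, ha]
  have h2 : (∑ R ∈ D.powerset, ‖1 - z‖ ^ R.card * ‖dR z g R x‖) ^ 2 ≤
      (∑ R ∈ D.powerset, θ ^ R.card) * ∑ R ∈ D.powerset, t ^ R.card * ‖dR z g R x‖ ^ 2 := by
    refine Finset.sum_sq_le_sum_mul_sum_of_sq_le_mul _ (fun R _ => pow_nonneg hθ _)
      (fun R _ => mul_nonneg (pow_nonneg ht _) (sq_nonneg _)) fun R _ => le_of_eq ?_
    calc (‖1 - z‖ ^ R.card * ‖dR z g R x‖) ^ 2
        = (‖1 - z‖ ^ 2) ^ R.card * ‖dR z g R x‖ ^ 2 := by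
          rw [mul_pow, ← pow_mul, ← pow_mul, mul_comm 2]
      _ = θ ^ R.card * (t ^ R.card * ‖dR z g R x‖ ^ 2) := by
          rw [← h, mul_pow, mul_assoc]
  have h3 : ∑ R ∈ D.powerset, θ ^ R.card = (1 + θ) ^ D.card := by
    have := Finset.sum_pow_mul_eq_add_pow θ 1 D
    simp only [one_pow, mul_one] at this
    rw [this, add_comm]
  have h4 : ∑ R ∈ D.powerset, t ^ R.card * ‖dR z g R x‖ ^ 2 ≤ QR z t g x := by
    unfold QR
    exact Finset.sum_le_sum_of_subset_of_nonneg (subset_univ _)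
      fun R _ _ => mul_nonneg (pow_nonneg ht _) (sq_nonneg _)
  calc ‖cm Dᶜ z g x‖ ^ 2 ≤ (∑ R ∈ D.powerset, ‖1 - z‖ ^ R.card * ‖dR z g R x‖) ^ 2 :=
        pow_le_pow_left₀ (norm_nonneg _) h1 2
    _ ≤ _ := h2
    _ = (1 + θ) ^ D.card * ∑ R ∈ D.powerset, t ^ R.card * ‖dR z g R x‖ ^ 2 := by rw [h3]
    _ ≤ _ := mul_le_mul_of_nonneg_left h4 (by positivity)

end Pool.Agent.Work.MP_56168e_lc.TS
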