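import Mathlib
import Pool.Agent.Work.MP_56168e_lc.TS.Exp
import Pool.Agent.Work.MP_56168e_lc.Nrm

set_option autoImplicit false

/-! Moments of QR under a small-bias density. -/

namespace Pool.Agent.Work.MP_56168e_lc.TS

open Finset Pool.Agent.Work.MP_56168e_lc Pool.Agent.Work.MP_56168e_lc.OS

variable {n s : ℕ}

lemma fc_lin (c : Finset (Fin n) → ℝ) (S : Finset (Fin n)) :
    fc (fun x => ∑ Q, c Q * chi Q x) S = c S := by
  rw [fc_sum univ (fun Q x => c Q * chi Q x) S]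
  have h : ∀ Q : Finset (Fin n), fc (fun x => c Q * chi Q x) S = if Q = S then c S else 0 := by
    intro Q
    rw [fc_smul, fc_chi]
    split_ifs with h
    · rw [h, mul_one]
    · rw [mul_zero]
  rw [Finset.sum_congr rfl fun Q _ => h Q, Finset.sum_ite_eq' univ S]
  simp

lemma ex_lin_sq (c : Finset (Fin n) → ℝ) :
    ex (fun x => (∑ Q, c Q * chi Q x) ^ 2) = ∑ S, c S ^ 2 := by
  have h := parseval (fun x => ∑ Q, c Q * chi Q x) (fun x => ∑ Q, c Q * chi Q x)
  rw [ex_congr fun x => pow_two _, h]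
  exact sum_congr rfl fun S _ => by rw [fc_lin, pow_two]

lemma nrm_lin (c : Finset (Fin n) → ℝ) : nrm (fun x => ∑ Q, c Q * chi Q x) = ∑ S, |c S| := by
  unfold nrm
  exact sum_congr rfl fun S _ => by rw [fc_lin]

lemma pe_lin_sq {ε : ℝ} {φ : Cube n → ℝ} (hφ : Dens ε φ) (hε : 0 ≤ ε)
    (c : Finset (Fin n) → ℝ) :
    pe φ (fun x => (∑ Q, c Q * chi Q x) ^ 2) ≤ ∑ S, c S ^ 2 + ε * (∑ S, |c S|) ^ 2 := by
  have h1 := (abs_le.1 (fool hφ hε (fun x => (∑ Q, c Q * chi Q x) ^ 2))).2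
  have h2 := nrm_sq_le (fun x : Cube n => ∑ Q, c Q * chi Q x)
  rw [nrm_lin] at h2
  rw [ex_lin_sq] at h1
  have h3 := mul_le_mul_of_nonneg_left h2 hε
  linarith

lemma dR_re (z : ℂ) (g : Cube n → ℝ) (R : Finset (Fin n)) (x : Cube n) :
    (dR z g R x).re = ∑ S, (if R ⊆ S then (z ^ S.card).re * fc g S else 0) * chi S x := by
  unfold dR
  rw [Complex.re_sum, sum_filter]
  refine sum_congr rfl fun S _ => ?_
  split_ifs
  · rw [Complex.re_mul_ofReal]
    ring
  · rw [zero_mul]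

lemma dR_im (z : ℂ) (g : Cube n → ℝ) (R : Finset (Fin n)) (x : Cube n) :
    (dR z g R x).im = ∑ S, (if R ⊆ S then (z ^ S.card).im * fc g S else 0) * chi S x := by
  unfold dR
  rw [Complex.im_sum, sum_filter]
  refine sum_congr rfl fun S _ => ?_
  split_ifs
  · rw [Complex.im_mul_ofReal]
    ring
  · rw [zero_mul]

lemma pe_dR {ε : ℝ} {φ : Cube n → ℝ} (hφ : Dens ε φ) (hε : 0 ≤ ε) {z : ℂ} (hz : ‖z‖ = 1)
    (g : Cube n → ℝ) (R : Finset (Fin n)) :
    pe φ (fun x => ‖dR z g R x‖ ^ 2) ≤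
      ∑ S, (if R ⊆ S then fc g S ^ 2 else 0)
        + 2 * ε * (∑ S, (if R ⊆ S then |fc g S| else 0)) ^ 2 := by
  have h0 : ∀ x, ‖dR z g R x‖ ^ 2 =
      (∑ S, (if R ⊆ S then (z ^ S.card).re * fc g S else 0) * chi S x) ^ 2
      + (∑ S, (if R ⊆ S then (z ^ S.card).im * fc g S else 0) * chi S x) ^ 2 := by
    intro x
    rw [← dR_re, ← dR_im, ← Complex.normSq_eq_norm_sq, Complex.normSq_apply]
    ring
  have h1 := pe_lin_sq hφ hε (fun S => if R ⊆ S then (z ^ S.card).re * fc g S else 0)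
  have h2 := pe_lin_sq hφ hε (fun S => if R ⊆ S then (z ^ S.card).im * fc g S else 0)
  have h3 : pe φ (fun x => ‖dR z g R x‖ ^ 2) =
      pe φ (fun x => (∑ S, (if R ⊆ S then (z ^ S.card).re * fc g S else 0) * chi S x) ^ 2)
      + pe φ (fun x => (∑ S, (if R ⊆ S then (z ^ S.card).im * fc g S else 0) * chi S x) ^ 2) := by
    rw [← pe_add]
    congr 1
    exact funext h0
  have hn : ∀ S : Finset (Fin n), ‖z ^ S.card‖ = 1 := fun S => by rw [norm_pow, hz, one_pow]
  have h4 : ∑ S, (if R ⊆ S then (z ^ S.card).re * fc g S else 0) ^ 2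
      + ∑ S, (if R ⊆ S then (z ^ S.card).im * fc g S else 0) ^ 2
      = ∑ S, (if R ⊆ S then fc g S ^ 2 else 0) := by
    rw [← sum_add_distrib]
    refine sum_congr rfl fun S _ => ?_
    split_ifs
    · have h5 : (z ^ S.card).re ^ 2 + (z ^ S.card).im ^ 2 = 1 := by
        have h6 := Complex.normSq_eq_norm_sq (z ^ S.card)
        rw [Complex.normSq_apply, hn S] at h6
        nlinarith
      calc ((z ^ S.card).re * fc g S) ^ 2 + ((z ^ S.card).im * fc g S) ^ 2
          = ((z ^ S.card).re ^ 2 + (z ^ S.card).im ^ 2) * fc g S ^ 2 := by ring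
        _ = fc g S ^ 2 := by rw [h5, one_mul]
    · norm_num
  have hN0 : 0 ≤ ∑ S, (if R ⊆ S then |fc g S| else 0) :=
    sum_nonneg fun S _ => by split_ifs <;> positivity
  have h5 : (∑ S, |if R ⊆ S then (z ^ S.card).re * fc g S else 0|) ≤
      ∑ S, (if R ⊆ S then |fc g S| else 0) := by
    refine sum_le_sum fun S _ => ?_
    split_ifs
    · rw [abs_mul]
      have := Complex.abs_re_le_norm (z ^ S.card)
      rw [hn S] at this
      exact mul_le_of_le_one_left (abs_nonneg _) this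
    · rw [abs_zero]
  have h6 : (∑ S, |if R ⊆ S then (z ^ S.card).im * fc g S else 0|) ≤
      ∑ S, (if R ⊆ S then |fc g S| else 0) := by
    refine sum_le_sum fun S _ => ?_
    split_ifs
    · rw [abs_mul]
      have := Complex.abs_im_le_norm (z ^ S.card)
      rw [hn S] at this
      exact mul_le_of_le_one_left (abs_nonneg _) this
    · rw [abs_zero]
  have h7 := mul_le_mul_of_nonneg_left
    (pow_le_pow_left₀ (sum_nonneg fun S _ => abs_nonneg _) h5 2) hε
  have h8 := mul_le_mul_of_nonneg_left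
    (pow_le_pow_left₀ (sum_nonneg fun S _ => abs_nonneg _) h6 2) hε
  rw [h3]
  linarith

/-- sum over R of t^|R| over the sets containing R -/
lemma sum_up (t : ℝ) (c : Finset (Fin n) → ℝ) :
    ∑ R : Finset (Fin n), t ^ R.card * ∑ S, (if R ⊆ S then c S else 0) =
      ∑ S, (1 + t) ^ S.card * c S := by
  simp only [mul_sum]
  rw [sum_comm]
  refine sum_congr rfl fun S _ => ?_
  have h1 : ∀ R : Finset (Fin n), t ^ R.card * (if R ⊆ S then c S else 0) =
      if R ⊆ S then t ^ R.card * c S else 0 := fun R => by split_ifs <;> simp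
  rw [sum_congr rfl fun R _ => h1 R, ← sum_filter]
  have h2 : (univ : Finset (Finset (Fin n))).filter (fun R => R ⊆ S) = S.powerset := by
    ext R
    simp
  have h3 := Finset.sum_pow_mul_eq_add_pow t 1 S
  simp only [one_pow, mul_one] at h3
  rw [h2, ← sum_mul, h3, add_comm]

theorem pe_QR {ε : ℝ} {φ : Cube n → ℝ} (hφ : Dens ε φ) (hε : 0 ≤ ε) {z : ℂ} (hz : ‖z‖ = 1)
    {t : ℝ} (ht : 0 ≤ t) {g : Cube n → ℝ} {k : ℕ} (hg : ∀ S : Finset (Fin n), k ≤ S.card →
      fc g S = 0) :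
    pe φ (QR z t g) ≤ (1 + t) ^ k * (ex (fun x => g x ^ 2) + 2 * ε * nrm g ^ 2) := by
  have hpow : ∀ (S : Finset (Fin n)) (a : ℝ), 0 ≤ a → (k ≤ S.card → a = 0) →
      (1 + t) ^ S.card * a ≤ (1 + t) ^ k * a := by
    intro S a ha h
    by_cases hk : k ≤ S.card
    · rw [h hk, mul_zero, mul_zero]
    · exact mul_le_mul_of_nonneg_right
        (pow_le_pow_right₀ (by linarith) (by omega)) ha
  have h1 : pe φ (QR z t g) = ∑ R : Finset (Fin n), t ^ R.card *
      pe φ (fun x => ‖dR z g R x‖ ^ 2) := by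
    have : pe φ (QR z t g) = pe φ (fun x => ∑ R ∈ (univ : Finset (Finset (Fin n))),
        (fun (R : Finset (Fin n)) (x : Cube n) => t ^ R.card * ‖dR z g R x‖ ^ 2) R x) := rfl
    rw [this, pe_sum]
    exact sum_congr rfl fun R _ => pe_smul φ _ _
  have h2 : ∑ R : Finset (Fin n), t ^ R.card * pe φ (fun x => ‖dR z g R x‖ ^ 2) ≤
      ∑ R : Finset (Fin n), (t ^ R.card * (∑ S, (if R ⊆ S then fc g S ^ 2 else 0))
        + 2 * ε * nrm g * (t ^ R.card * ∑ S, (if R ⊆ S then |fc g S| else 0))) := by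
    refine sum_le_sum fun R _ => ?_
    have h3 := pe_dR hφ hε hz g R
    have h4 : ∑ S, (if R ⊆ S then |fc g S| else 0) ≤ nrm g := by
      unfold nrm
      refine sum_le_sum fun S _ => ?_
      split_ifs
      · exact le_rfl
      · exact abs_nonneg _
    have h5 : 0 ≤ ∑ S, (if R ⊆ S then |fc g S| else 0) :=
      sum_nonneg fun S _ => by split_ifs <;> positivity
    have h6 : (∑ S, (if R ⊆ S then |fc g S| else 0)) ^ 2 ≤
        nrm g * ∑ S, (if R ⊆ S then |fc g S| else 0) := by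
      rw [pow_two]
      exact mul_le_mul_of_nonneg_right h4 h5
    have h7 := mul_le_mul_of_nonneg_left h6 (mul_nonneg (by norm_num : (0 : ℝ) ≤ 2) hε)
    calc t ^ R.card * pe φ (fun x => ‖dR z g R x‖ ^ 2)
        ≤ t ^ R.card * (∑ S, (if R ⊆ S then fc g S ^ 2 else 0)
          + 2 * ε * (nrm g * ∑ S, (if R ⊆ S then |fc g S| else 0))) :=
          mul_le_mul_of_nonneg_left (by linarith) (pow_nonneg ht _)
      _ = _ := by ring
  have h3 : ∑ R : Finset (Fin n), (t ^ R.card * (∑ S, (if R ⊆ S then fc g S ^ 2 else 0))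
        + 2 * ε * nrm g * (t ^ R.card * ∑ S, (if R ⊆ S then |fc g S| else 0))) =
      ∑ S : Finset (Fin n), (1 + t) ^ S.card * fc g S ^ 2
        + 2 * ε * nrm g * ∑ S : Finset (Fin n), (1 + t) ^ S.card * |fc g S| := by
    rw [sum_add_distrib, ← mul_sum, sum_up, sum_up]
  have h4 : ∑ S : Finset (Fin n), (1 + t) ^ S.card * fc g S ^ 2 ≤
      (1 + t) ^ k * ex (fun x => g x ^ 2) := by
    have e : ex (fun x => g x ^ 2) = ∑ S, fc g S ^ 2 := by
      have h := parseval g g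
      rw [ex_congr fun x => pow_two _, h]
      exact sum_congr rfl fun S _ => by rw [pow_two]
    rw [e, mul_sum]
    exact sum_le_sum fun S _ => hpow S _ (sq_nonneg _) fun hk => by rw [hg S hk]; norm_num
  have h5 : ∑ S : Finset (Fin n), (1 + t) ^ S.card * |fc g S| ≤ (1 + t) ^ k * nrm g := by
    unfold nrm
    rw [mul_sum]
    exact sum_le_sum fun S _ => hpow S _ (abs_nonneg _) fun hk => by rw [hg S hk, abs_zero]
  have h6 := mul_le_mul_of_nonneg_left h5
    (mul_nonneg (mul_nonneg (by norm_num : (0 : ℝ) ≤ 2) hε) (nrm_nonneg g))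
  rw [h1]
  calc _ ≤ _ := h2
    _ = _ := h3
    _ ≤ (1 + t) ^ k * ex (fun x => g x ^ 2) + 2 * ε * nrm g * ((1 + t) ^ k * nrm g) := by
        linarith
    _ = _ := by ring

end Pool.Agent.Work.MP_56168e_lc.TS
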