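import Mathlib
import Pool.Agent.Work.MP_56168e_lc.TS.Mom
import Pool.Agent.Work.MP_56168e_lc.TrF

set_option autoImplicit false

/-! The upper bound for a DNF of width W. -/

namespace Pool.Agent.Work.MP_56168e_lc.TS

open Finset Pool.Agent.Work.MP_56168e_lc Pool.Agent.Work.MP_56168e_lc.OS

variable {n s : ℕ}

lemma base_ineq {b : ℝ} (hb : 0 ≤ b) (hb1 : b ≤ 1) {ρ W k : ℕ} (hρ : 1 ≤ ρ)
    (hk : k ≤ ρ ^ 2 * W) :
    (1 + 2 * b * ρ) ^ W * (1 + 2 * b / ρ) ^ k ≤ ((1 + b) ^ (2 * (2 * ρ * W))) ^ 2 := by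
  have hρ0 : (1 : ℝ) ≤ ρ := by exact_mod_cast hρ
  have hρp : (0 : ℝ) < ρ := by linarith
  have h1 : 1 + 2 * b * ρ ≤ (1 + b) ^ (2 * ρ) := by
    have := one_add_mul_le_pow (show (-2 : ℝ) ≤ b by linarith) (2 * ρ)
    push_cast at this
    linarith
  have hbρ : 0 ≤ b / ρ := div_nonneg hb hρp.le
  have h2 : 1 + 2 * b / ρ ≤ (1 + b / ρ) ^ 2 := by
    have e : 2 * b / ρ = 2 * (b / ρ) := by ring
    rw [e]
    nlinarith [sq_nonneg (b / ρ)]
  have h3 : (1 + b / ρ) ^ ρ ≤ (1 + b) ^ 2 := by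
    have h4 : (1 + b / ρ) ^ ρ ≤ Real.exp b := by
      have h5 : 1 + b / ρ ≤ Real.exp (b / ρ) := by
        have := Real.add_one_le_exp (b / ρ)
        linarith
      calc (1 + b / ρ) ^ ρ ≤ Real.exp (b / ρ) ^ ρ := pow_le_pow_left₀ (by linarith) h5 _
        _ = Real.exp b := by
            rw [← Real.exp_nat_mul]
            congr 1
            field_simp
    have h6 : Real.exp b ≤ 1 + b + b ^ 2 := by
      have := Real.abs_exp_sub_one_sub_id_le (x := b) (by rw [abs_of_nonneg hb]; exact hb1)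
      have := (abs_le.1 this).2
      linarith
    nlinarith [sq_nonneg b]
  have h7 : (1 + 2 * b / ρ) ^ k ≤ (1 + b) ^ (4 * ρ * W) := by
    have e0 : (1 : ℝ) ≤ 1 + 2 * b / ρ := by
      have : 0 ≤ 2 * b / ρ := by positivity
      linarith
    calc (1 + 2 * b / ρ) ^ k ≤ (1 + 2 * b / ρ) ^ (ρ ^ 2 * W) := pow_le_pow_right₀ e0 hk
      _ ≤ ((1 + b / ρ) ^ 2) ^ (ρ ^ 2 * W) := pow_le_pow_left₀ (by linarith) h2 _
      _ = ((1 + b / ρ) ^ ρ) ^ (2 * ρ * W) := by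
          rw [← pow_mul, ← pow_mul]
          congr 1
          ring
      _ ≤ ((1 + b) ^ 2) ^ (2 * ρ * W) := pow_le_pow_left₀ (by positivity) h3 _
      _ = (1 + b) ^ (4 * ρ * W) := by
          rw [← pow_mul]
          congr 1
          ring
  have h8 : (1 + 2 * b * ρ) ^ W ≤ (1 + b) ^ (2 * ρ * W) := by
    have e0 : 0 ≤ 1 + 2 * b * ρ := by positivity
    calc (1 + 2 * b * ρ) ^ W ≤ ((1 + b) ^ (2 * ρ)) ^ W := pow_le_pow_left₀ e0 h1 _
      _ = _ := by rw [← pow_mul]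
  calc (1 + 2 * b * ρ) ^ W * (1 + 2 * b / ρ) ^ k
      ≤ (1 + b) ^ (2 * ρ * W) * (1 + b) ^ (4 * ρ * W) :=
        mul_le_mul h8 h7 (by positivity) (by positivity)
    _ = (1 + b) ^ (2 * ρ * W + 4 * ρ * W) := by rw [pow_add]
    _ ≤ (1 + b) ^ (2 * (2 * ρ * W) * 2) :=
        pow_le_pow_right₀ (by linarith) (by nlinarith [Nat.zero_le (ρ * W)])
    _ = _ := by rw [← pow_mul]

theorem upp_main (T : Fin s → PA n) {W ρ K M : ℕ} {η ε : ℝ} {w : Fin M → ℝ} {z : Fin M → ℂ}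
    (hW : ∀ i, (dom (T i)).card ≤ W) (hρ : 1 ≤ ρ) (hk : K + W ≤ ρ ^ 2 * W)
    (hK : Kern (2 * ρ * W) n K η M w z) {φ : Cube n → ℝ} (hφ : Dens ε φ) (hε : 0 ≤ ε) :
    pe φ (dn T) ≤ (1 + η) ^ 2 * (ex (dn T) + 2 * ε * nrm (tr (K + W) (dn T)) ^ 2) := by
  have hρ0 : (1 : ℝ) ≤ ρ := by exact_mod_cast hρ
  have hρp : (0 : ℝ) < ρ := by linarith
  set v := tr (K + W) (dn T) with hv
  obtain ⟨N, hN⟩ : ∃ N : Fin M → ℝ, ∀ r, N r = (1 + ‖1 - z r‖ / 2) ^ (2 * (2 * ρ * W)) :=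
    ⟨_, fun _ => rfl⟩
  have hNpos : ∀ r, 0 < N r := fun r => by rw [hN]; positivity
  have hc : ∑ r, w r * N r ≤ 1 + η := by
    simp only [hN]; exact hK.conc
  have hS0 : 0 ≤ ∑ r, w r * N r := sum_nonneg fun r _ => mul_nonneg (hK.nonneg r) (hNpos r).le
  obtain ⟨b, hb⟩ : ∃ b : Fin M → ℝ, ∀ r, b r = ‖1 - z r‖ / 2 := ⟨_, fun _ => rfl⟩
  have hb0 : ∀ r, 0 ≤ b r := fun r => by rw [hb]; positivity
  have hb1 : ∀ r, b r ≤ 1 := fun r => by
    rw [hb]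
    have : ‖1 - z r‖ ≤ 2 := by
      calc ‖1 - z r‖ ≤ ‖(1 : ℂ)‖ + ‖z r‖ := norm_sub_le _ _
        _ = 2 := by rw [hK.circle r, norm_one]; norm_num
    linarith
  have hθt : ∀ r, (2 * b r * ρ) * (2 * b r / ρ) = ‖1 - z r‖ ^ 2 := fun r => by
    rw [hb]
    field_simp
  have hθ0 : ∀ r, 0 ≤ 2 * b r * ρ := fun r => by have := hb0 r; positivity
  have ht0 : ∀ r, 0 ≤ 2 * b r / ρ := fun r => by have := hb0 r; positivity
  have hQ0 : ∀ r x, 0 ≤ QR (z r) (2 * b r / ρ) v x := by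
    intro r x
    unfold QR
    exact sum_nonneg fun R _ => mul_nonneg (pow_nonneg (ht0 r) _) (sq_nonneg _)
  have hpt : ∀ x, dn T x ≤ (∑ r, w r * N r) *
      ∑ r, w r / N r * (1 + 2 * b r * ρ) ^ W * QR (z r) (2 * b r / ρ) v x := by
    intro x
    by_cases hx : ∃ i, Sat (T i) x
    · obtain ⟨i, hi⟩ := hx
      have e1 : dn T x = 1 := by
        unfold dn
        rw [if_pos ⟨i, hi⟩]
      have h1 := sum_cm_tr T hW hK i hi
      have h2 : (∑ r, w r * (cm (dom (T i))ᶜ (z r) v x).re) ^ 2 ≤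
          (∑ r, w r * N r) * ∑ r, w r / N r * (cm (dom (T i))ᶜ (z r) v x).re ^ 2 := by
        refine Finset.sum_sq_le_sum_mul_sum_of_sq_le_mul univ
          (fun r _ => mul_nonneg (hK.nonneg r) (hNpos r).le)
          (fun r _ => mul_nonneg (div_nonneg (hK.nonneg r) (hNpos r).le) (sq_nonneg _))
          fun r _ => le_of_eq ?_
        have := (hNpos r).ne'
        field_simp
      rw [h1, one_pow] at h2
      rw [e1]
      refine h2.trans (mul_le_mul_of_nonneg_left (sum_le_sum fun r _ => ?_) hS0)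
      have h3 : (cm (dom (T i))ᶜ (z r) v x).re ^ 2 ≤
          (1 + 2 * b r * ρ) ^ W * QR (z r) (2 * b r / ρ) v x := by
        have h4 : (cm (dom (T i))ᶜ (z r) v x).re ^ 2 ≤ ‖cm (dom (T i))ᶜ (z r) v x‖ ^ 2 := by
          rw [← sq_abs (cm (dom (T i))ᶜ (z r) v x).re]
          exact pow_le_pow_left₀ (abs_nonneg _) (Complex.abs_re_le_norm _) 2
        have h5 := norm_cm_sq_le (dom (T i)) (hK.circle r) (hθ0 r) (ht0 r) (hθt r) v x
        have h6 : (1 + 2 * b r * ρ) ^ (dom (T i)).card ≤ (1 + 2 * b r * ρ) ^ W :=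
          pow_le_pow_right₀ (by have := hθ0 r; linarith) (hW i)
        exact h4.trans (h5.trans (mul_le_mul_of_nonneg_right h6 (hQ0 r x)))
      rw [mul_assoc]
      exact mul_le_mul_of_nonneg_left h3 (div_nonneg (hK.nonneg r) (hNpos r).le)
    · have e1 : dn T x = 0 := by
        unfold dn
        rw [if_neg hx]
      rw [e1]
      refine mul_nonneg hS0 (sum_nonneg fun r _ => mul_nonneg (mul_nonneg
        (div_nonneg (hK.nonneg r) (hNpos r).le) (pow_nonneg ?_ _)) (hQ0 r x))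
      have := hθ0 r
      linarith
  have hE0 : 0 ≤ ex (fun x => v x ^ 2) + 2 * ε * nrm v ^ 2 := by
    have h1 : 0 ≤ ex (fun x => v x ^ 2) := ex_nonneg fun x => sq_nonneg _
    have h2 : 0 ≤ 2 * ε * nrm v ^ 2 := by positivity
    linarith
  have hfc : ∀ S : Finset (Fin n), K + W ≤ S.card → fc v S = 0 := by
    intro S hS
    rw [hv, fc_tr, if_neg (by omega)]
  have h1 : pe φ (dn T) ≤ (∑ r, w r * N r) *
      ∑ r, w r / N r * (1 + 2 * b r * ρ) ^ W * pe φ (QR (z r) (2 * b r / ρ) v) := by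
    refine (pe_mono hφ hpt).trans (le_of_eq ?_)
    rw [pe_smul, pe_sum]
    congr 1
    exact sum_congr rfl fun r _ => pe_smul φ _ _
  have h2 : ∑ r, w r / N r * (1 + 2 * b r * ρ) ^ W * pe φ (QR (z r) (2 * b r / ρ) v) ≤
      (∑ r, w r * N r) * (ex (fun x => v x ^ 2) + 2 * ε * nrm v ^ 2) := by
    rw [sum_mul]
    refine sum_le_sum fun r _ => ?_
    have h3 := pe_QR hφ hε (hK.circle r) (ht0 r) hfc
    have h4 := base_ineq (hb0 r) (hb1 r) hρ hk
    have h5 : 0 ≤ (1 + 2 * b r * ρ) ^ W := by have := hθ0 r; positivity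
    have h6 : 0 ≤ w r / N r := div_nonneg (hK.nonneg r) (hNpos r).le
    have e : ((1 + b r) ^ (2 * (2 * ρ * W))) = N r := by rw [hN, hb]
    rw [e] at h4
    calc w r / N r * (1 + 2 * b r * ρ) ^ W * pe φ (QR (z r) (2 * b r / ρ) v)
        ≤ w r / N r * (1 + 2 * b r * ρ) ^ W * ((1 + 2 * b r / ρ) ^ (K + W) *
          (ex (fun x => v x ^ 2) + 2 * ε * nrm v ^ 2)) :=
          mul_le_mul_of_nonneg_left h3 (mul_nonneg h6 h5)
      _ = w r / N r * ((1 + 2 * b r * ρ) ^ W * (1 + 2 * b r / ρ) ^ (K + W)) *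
          (ex (fun x => v x ^ 2) + 2 * ε * nrm v ^ 2) := by ring
      _ ≤ w r / N r * (N r ^ 2) * (ex (fun x => v x ^ 2) + 2 * ε * nrm v ^ 2) :=
          mul_le_mul_of_nonneg_right (mul_le_mul_of_nonneg_left h4 h6) hE0
      _ = w r * N r * (ex (fun x => v x ^ 2) + 2 * ε * nrm v ^ 2) := by
          have := (hNpos r).ne'
          field_simp
  have h3 : ex (fun x => v x ^ 2) ≤ ex (dn T) := by
    refine (tr_sq_le (K + W) (dn T)).trans (ex_mono fun x => ?_)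
    have h4 := dn_nonneg T x
    have h5 := dn_le_one T x
    nlinarith
  calc pe φ (dn T) ≤ _ := h1
    _ ≤ (∑ r, w r * N r) * ((∑ r, w r * N r) * (ex (fun x => v x ^ 2) + 2 * ε * nrm v ^ 2)) :=
        mul_le_mul_of_nonneg_left h2 hS0
    _ = (∑ r, w r * N r) ^ 2 * (ex (fun x => v x ^ 2) + 2 * ε * nrm v ^ 2) := by ring
    _ ≤ (1 + η) ^ 2 * (ex (fun x => v x ^ 2) + 2 * ε * nrm v ^ 2) :=
        mul_le_mul_of_nonneg_right (pow_le_pow_left₀ hS0 hc 2) hE0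
    _ ≤ _ := mul_le_mul_of_nonneg_left (by linarith) (by positivity)

end Pool.Agent.Work.MP_56168e_lc.TS
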