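import Mathlib
import Pool.Agent.Work.MP_56168e_lc.OS.ApxT
import Pool.Agent.Work.MP_56168e_lc.OS.Low
import Pool.Agent.Work.MP_56168e_lc.OS.Wid
import Pool.Agent.Work.MP_56168e_lc.TS.KerL
import Pool.Agent.Work.MP_56168e_lc.TS.Up
import Pool.Agent.Work.MP_56168e_lc.TS.Num

set_option autoImplicit false

/-! Assembly of the two-sided theorem. -/

namespace Pool.Agent.Work.MP_56168e_lc.TS

open Finset Pool.Agent.Work.MP_56168e_lc Pool.Agent.Work.MP_56168e_lc.OS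

variable {n s : ℕ}

lemma nrm_tr_dn (T : Fin s → PA n) {W : ℕ} (hW1 : 1 ≤ W) (hW : ∀ i, (dom (T i)).card ≤ W)
    (k : ℕ) : nrm (tr k (dn T)) ≤ (13 * W) ^ k := by
  have e : dn T = fi (List.ofFn T) := by
    funext x
    unfold dn fi Ev
    have key : (∃ i, Sat (T i) x) ↔ ∃ P ∈ List.ofFn T, Sat P x := by
      constructor
      · rintro ⟨i, hi⟩
        exact ⟨T i, by rw [List.mem_ofFn']; exact ⟨i, rfl⟩, hi⟩
      · rintro ⟨P, hP, hs⟩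
        rw [List.mem_ofFn'] at hP
        obtain ⟨i, rfl⟩ := hP
        exact ⟨i, hs⟩
    by_cases h : ∃ i, Sat (T i) x
    · rw [if_pos h, if_pos (key.1 h)]
    · rw [if_neg h, if_neg fun h' => h (key.2 h')]
  rw [e]
  refine conc_nrm (List.ofFn T) W k hW1 fun P hP => ?_
  rw [List.mem_ofFn'] at hP
  obtain ⟨i, rfl⟩ := hP
  exact hW i

theorem apxL (T : Fin s → PA n) {W L : ℕ} (hW1 : 1 ≤ W) (hL : 64 * W * a0 W ≤ L)
    (hW : ∀ i, (dom (T i)).card ≤ W) (hη : 600 * ((W : ℝ) / L) ≤ 1) :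
    ∃ v, Apx T (3 * (600 * ((W : ℝ) / L))) (2 * (s + 1) * (13 * W) ^ (4 * L)) v := by
  obtain ⟨M, w, z, hK⟩ := kernL hW1 hL n
  refine ⟨vv T (psi w z), vv_off T _, vv_ex T (psi_zero hK), ?_, ?_, fun D hD => vv_ind T _ hD⟩
  · refine le_trans (vv_sq T hW hK) ?_
    refine mul_le_mul_of_nonneg_right ?_ (ex_nonneg (dn_nonneg T))
    have h0 : 0 ≤ 600 * ((W : ℝ) / L) := by positivity
    nlinarith
  · refine le_trans (vv_nrm T hW1 hW (psi_le hK) hK.vanish) ?_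
    have h0 : (1 : ℝ) ≤ W := by exact_mod_cast hW1
    have h1 : (1 : ℝ) ≤ 13 * W := by linarith
    have h2 : (1 : ℝ) ≤ (13 * W) ^ (4 * L) := one_le_pow₀ h1
    have h3 : (0 : ℝ) ≤ s := Nat.cast_nonneg s
    nlinarith

/-- both sides for one set of parameters -/
theorem both : ∃ C : ℝ, 0 < C ∧ ∀ (n s : ℕ) (T : Fin s → PA n) (δ ε : ℝ) (φ : Cube n → ℝ),
    0 < δ → δ ≤ 1 → 0 ≤ ε → ε ≤ Real.exp (-(YY C s δ)) → Dens ε φ →
      |pe φ (dn T) - ex (dn T)| ≤ δ / 2 := by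
  obtain ⟨C, hC, H⟩ := num2
  refine ⟨C, hC, ?_⟩
  intro n s T δ ε φ hδ hδ1 hε hεX hφ
  obtain ⟨W, Q, hW1, hQ1, h1, h2, h3⟩ := H s δ hδ hδ1
  obtain ⟨ρ, hρ⟩ : ∃ ρ, ρ = 8 * Q + 2 ^ 14 * a0 W := ⟨_, rfl⟩
  have hρok := rho_ok (Q := Q) hW1
  rw [← hρ] at hρok h3
  have ha : 1 ≤ a0 W := by unfold a0; omega
  have hρ1 : 1 ≤ ρ := by rw [hρ]; omega
  have hW0 : (1 : ℝ) ≤ W := by exact_mod_cast hW1
  have hQ0 : (1 : ℝ) ≤ Q := by exact_mod_cast hQ1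
  have hρ0 : (1 : ℝ) ≤ ρ := by exact_mod_cast hρ1
  have hs0 : (0 : ℝ) ≤ s := Nat.cast_nonneg s
  have h13 : (1 : ℝ) ≤ 13 * W := by linarith
  have hhalf : (0 : ℝ) ≤ (1 / 2 : ℝ) ^ W := by positivity
  have hsW : (s : ℝ) * (1 / 2) ^ W ≤ δ / 16 := by nlinarith
  obtain ⟨Γ, hΓ⟩ : ∃ Γ : ℝ, Γ = (13 * W) ^ (ρ ^ 2 * W) := ⟨_, rfl⟩
  have hΓ1 : 1 ≤ Γ := by rw [hΓ]; exact one_le_pow₀ h13
  rw [← hΓ] at h3
  have hε3 : (s + 1 : ℝ) ^ 2 * (ε * Γ ^ 2) ≤ δ / 64 := by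
    refine le_trans ?_ h3
    have : ε * Γ ^ 2 ≤ Real.exp (-(YY C s δ)) * Γ ^ 2 :=
      mul_le_mul_of_nonneg_right hεX (by positivity)
    exact mul_le_mul_of_nonneg_left this (by positivity)
  have hQδ : 1 / (Q : ℝ) ≤ δ / 57600 := by
    have e : 57600 / (Q : ℝ) = 57600 * (1 / Q) := by ring
    rw [e] at h1
    linarith
  have hex1 : ∀ {m : ℕ} (T : Fin m → PA n), ex (dn T) ≤ 1 := by
    intro m T
    rw [← ex_const (n := n) (1 : ℝ)]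
    exact ex_mono (dn_le_one T)
  rw [abs_le]
  constructor
  · -- lower side
    obtain ⟨s', T', hs', hW', hle, hex⟩ := drop_long T W
    obtain ⟨L, hL⟩ : ∃ L, L = W * (Q + 64 * a0 W) := ⟨_, rfl⟩
    have hL64 : 64 * W * a0 W ≤ L := by
      rw [hL]
      nlinarith [Nat.zero_le (W * Q)]
    have hWL : (W : ℝ) / L ≤ 1 / Q := by
      rw [hL, div_le_div_iff₀ (by positivity) (by positivity)]
      push_cast
      have : (0 : ℝ) ≤ W * (64 * a0 W) := by positivity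
      nlinarith
    have hη0 : 0 ≤ 3 * (600 * ((W : ℝ) / L)) := by positivity
    have hη1 : 600 * ((W : ℝ) / L) ≤ 1 := by linarith
    obtain ⟨v, hv⟩ := apxL T' hW1 hL64 hW' hη1
    have hLρ : 4 * L ≤ ρ ^ 2 * W := by
      have h4 : 4 * (Q + 64 * a0 W) ≤ ρ ^ 2 := by
        calc 4 * (Q + 64 * a0 W) ≤ ρ := by rw [hρ]; omega
          _ ≤ ρ ^ 2 := Nat.le_self_pow (by norm_num) ρ
      rw [hL]
      nlinarith
    have hΛ0 : (1 : ℝ) ≤ (13 * W) ^ (4 * L) := one_le_pow₀ h13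
    have hΛ : (2 * ((s' : ℝ) + 1) * (13 * W) ^ (4 * L)) ≤ 2 * (s + 1) * Γ := by
      have h5 : (13 * (W : ℝ)) ^ (4 * L) ≤ Γ := by
        rw [hΓ]
        exact pow_le_pow_right₀ h13 hLρ
      have h6 : (s' : ℝ) ≤ s := by exact_mod_cast hs'
      exact mul_le_mul (by linarith) h5 (by positivity) (by positivity)
    have hΛ1 : (1 : ℝ) ≤ 2 * ((s' : ℝ) + 1) * (13 * W) ^ (4 * L) := by
      have : (0 : ℝ) ≤ s' := Nat.cast_nonneg s'
      nlinarith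
    have h5 : ε * (2 * ((s' : ℝ) + 1) * (13 * W) ^ (4 * L)) ^ 2 ≤ 3 * δ / 8 / 6 := by
      have h6 : (2 * ((s' : ℝ) + 1) * (13 * W) ^ (4 * L)) ^ 2 ≤ (2 * (s + 1) * Γ) ^ 2 :=
        pow_le_pow_left₀ (by linarith) hΛ 2
      have h7 : ε * (2 * ((s' : ℝ) + 1) * (13 * W) ^ (4 * L)) ^ 2 ≤
          ε * (2 * (s + 1) * Γ) ^ 2 := mul_le_mul_of_nonneg_left h6 hε
      have e : ε * (2 * ((s : ℝ) + 1) * Γ) ^ 2 = 4 * ((s + 1) ^ 2 * (ε * Γ ^ 2)) := by ring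
      rw [e] at h7
      linarith
    have h6 := low_of_apx (δ := 3 * δ / 8) hv hφ hε (by linarith) hη0 (by linarith) hΛ1 h5
    have h7 : pe φ (dn T') ≤ pe φ (dn T) := pe_mono hφ hle
    linarith
  · -- upper side
    obtain ⟨T', hW', hle, hex, -⟩ := cut_long T W
    obtain ⟨L, hL⟩ : ∃ L, L = ρ * W * (Q + 128 * a0 (2 * ρ * W)) := ⟨_, rfl⟩
    have hW2 : 1 ≤ 2 * ρ * W := by
      have : 1 ≤ ρ * W := Nat.mul_pos hρ1 hW1
      nlinarith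
    have hL64 : 64 * (2 * ρ * W) * a0 (2 * ρ * W) ≤ L := by
      rw [hL]
      nlinarith [Nat.zero_le (ρ * W * Q)]
    obtain ⟨M, w, z, hK⟩ := kernL hW2 hL64 n
    obtain ⟨η, hη⟩ : ∃ η : ℝ, η = 600 * (((2 * ρ * W : ℕ) : ℝ) / L) := ⟨_, rfl⟩
    rw [← hη] at hK
    have hη0 : 0 ≤ η := by rw [hη]; positivity
    have hη1 : η ≤ δ / 48 := by
      have h4 : ((2 * ρ * W : ℕ) : ℝ) / L ≤ 2 * (1 / Q) := by
        rw [hL]
        have h5 : (0 : ℝ) < ρ * W * Q := by positivity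
        have h6 : (0 : ℝ) ≤ ρ * W * (128 * a0 (2 * ρ * W)) := by positivity
        have h7 : (0 : ℝ) < ((ρ * W * (Q + 128 * a0 (2 * ρ * W)) : ℕ) : ℝ) := by
          push_cast
          nlinarith
        rw [div_le_iff₀ h7]
        push_cast
        have e : 2 * (1 / (Q : ℝ)) * (ρ * W * (Q + 128 * a0 (2 * ρ * W))) =
            2 * (ρ * W) + 2 * (1 / (Q : ℝ)) * (ρ * W * (128 * a0 (2 * ρ * W))) := by
          have : (Q : ℝ) ≠ 0 := by positivity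
          field_simp
        rw [e]
        have : 0 ≤ 2 * (1 / (Q : ℝ)) * (ρ * W * (128 * a0 (2 * ρ * W))) := by positivity
        linarith
      rw [hη]
      linarith
    have hk : 4 * L + W ≤ ρ ^ 2 * W := by
      calc 4 * L + W = (4 * ρ * (Q + 128 * a0 (2 * ρ * W)) + 1) * W := by rw [hL]; ring
        _ ≤ ρ ^ 2 * W := Nat.mul_le_mul_right _ hρok
    have h4 := upp_main T' hW' hρ1 hk hK hφ hε
    have h5 : nrm (tr (4 * L + W) (dn T')) ≤ Γ := by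
      refine (nrm_tr_dn T' hW1 hW' _).trans ?_
      rw [hΓ]
      exact pow_le_pow_right₀ h13 hk
    have h6 : 2 * ε * nrm (tr (4 * L + W) (dn T')) ^ 2 ≤ δ / 32 := by
      have h7 : nrm (tr (4 * L + W) (dn T')) ^ 2 ≤ Γ ^ 2 :=
        pow_le_pow_left₀ (nrm_nonneg _) h5 2
      have h8 : ε * nrm (tr (4 * L + W) (dn T')) ^ 2 ≤ ε * Γ ^ 2 :=
        mul_le_mul_of_nonneg_left h7 hε
      have h9 : ε * Γ ^ 2 ≤ (s + 1 : ℝ) ^ 2 * (ε * Γ ^ 2) := by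
        have : (1 : ℝ) ≤ (s + 1 : ℝ) ^ 2 := one_le_pow₀ (by linarith)
        exact le_mul_of_one_le_left (by positivity) this
      linarith
    have h7 : (1 + η) ^ 2 ≤ 1 + δ / 16 := by nlinarith
    have h8 : pe φ (dn T') ≤ (1 + δ / 16) * (ex (dn T') + δ / 32) := by
      refine h4.trans ?_
      have h9 : 0 ≤ ex (dn T') := ex_nonneg (dn_nonneg T')
      have h10 : 0 ≤ 2 * ε * nrm (tr (4 * L + W) (dn T')) ^ 2 := by positivity
      exact mul_le_mul h7 (by linarith) (by linarith) (by linarith)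
    have h9 := hex1 T'
    have h10 : pe φ (dn T) ≤ pe φ (dn T') := pe_mono hφ hle
    nlinarith

end Pool.Agent.Work.MP_56168e_lc.TS
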